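import Pool.Agent.Results.MP_743c94_lc.Full

/-!
A linear ordering of the natural numbers of type `ω + ω*`, computable from an oracle, all of whose
infinite ascending and descending sequences are hyperimmune relative to the oracle. The number `s` is
inserted at stage `s` into the ordering of the smaller numbers; `bas σ x` says that `x` is at stage
`|σ|` to the left of the place of insertion.
-/

set_option autoImplicit false

namespace Pool.Agent.Y534.NLO

open Encodable Denumerable Filter
open Nat.Partrec (Code)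
open Pool.Agent.Results.MP_743c94_lc.Full (pre pre_length pre_take primrec_elim)

/-- the value found by the `e`-th code in `s` steps on `(τ, n)` -/
def W (e s : ℕ) (τ : List Bool) (n : ℕ) : Option ℕ :=
  (Code.evaln s (ofNat Code e) (encode (τ, n))).bind fun v => Nat.casesOn v none fun y => some y

/-- the value at `n` found on the shortest possible initial segment of `σ` in `|σ|` steps -/
def V (e : ℕ) (σ : List Bool) (n : ℕ) : Option ℕ :=
  ((List.range σ.length).filterMap fun k => W e σ.length (σ.take k) n).head?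

/-- the least number below `n` with the property `f` -/
def fnd (f : ℕ → Bool) (n : ℕ) : Option ℕ :=
  Nat.rec (motive := fun _ => Option ℕ) none
    (fun m o => o.elim (bif f m then some m else none) some) n

/-- The condition for the closing of the `i`-th block, with the lower bound `b`, at the stage `|τ|`:
for `i = 4 e` and `i = 4 e + 1` a value `u < |τ|` of the `e`-th function at `b` has been found. -/
def cnd (i b : ℕ) (τ : List Bool) : Bool :=
  decide (b < τ.length) && (decide (i < τ.length) && (decide (2 ≤ i % 4) ||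
    (V (i / 4) τ b).elim false fun u => decide (u < τ.length)))

/-- the lower bound of the `i`-th block at stage `|σ|`; the block is closed at the upper bound -/
def bnd (σ : List Bool) (i : ℕ) : ℕ :=
  Nat.rec (motive := fun _ => ℕ) 0
    (fun i b => (fnd (fun t => cnd i b (σ.take t)) (σ.length + 1)).getD b) i

/-- the side of `x` according to the first `i` blocks -/
def cl (σ : List Bool) (x i : ℕ) : Bool :=
  Nat.rec (motive := fun _ => Bool) true
    (fun i a => bif (decide (bnd σ i ≤ x) && decide (x < bnd σ (i + 1))) then decide (i % 2 = 0)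
      else a) i

/-- the side of `x` at stage `|σ|` (`true`: to the left of the place of insertion) -/
def bas (σ : List Bool) (x : ℕ) : Bool := cl σ x σ.length

theorem primrec_V : Primrec fun q : ℕ × List Bool × ℕ => V q.1 q.2.1 q.2.2 := by
  have ha : Primrec (fun x : (ℕ × List Bool × ℕ) × ℕ => x.1.2.1) :=
    Primrec.fst.comp (Primrec.snd.comp Primrec.fst)
  have hb : Primrec (fun x : (ℕ × List Bool × ℕ) × ℕ => ofNat Code x.1.1) :=
    (Primrec.ofNat Code).comp (Primrec.fst.comp Primrec.fst)
  have hc : Primrec (fun x : (ℕ × List Bool × ℕ) × ℕ => encode (x.1.2.1.take x.2, x.1.2.2)) :=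
    Primrec.encode.comp ((Primrec.list_take.comp Primrec.snd ha).pair
      (Primrec.snd.comp (Primrec.snd.comp Primrec.fst)))
  have hd : Primrec (fun x : (ℕ × List Bool × ℕ) × ℕ =>
      Code.evaln x.1.2.1.length (ofNat Code x.1.1) (encode (x.1.2.1.take x.2, x.1.2.2))) :=
    Code.primrec_evaln.comp (((Primrec.list_length.comp ha).pair hb).pair hc)
  have he : Primrec₂ (fun (x : (ℕ × List Bool × ℕ) × ℕ) (v : ℕ) =>
      (Nat.casesOn v none fun y => some y : Option ℕ)) :=
    Primrec.nat_casesOn Primrec.snd (Primrec.const none)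
      (Primrec.option_some.comp Primrec.snd)
  have hf : Primrec₂ (fun (q : ℕ × List Bool × ℕ) (k : ℕ) =>
      W q.1 q.2.1.length (q.2.1.take k) q.2.2) := Primrec.option_bind hd he
  exact Primrec.list_head?.comp (Primrec.listFilterMap
    (Primrec.list_range.comp (Primrec.list_length.comp (Primrec.fst.comp Primrec.snd))) hf)


theorem primrec_fnd {α : Type} [Primcodable α] {f : α → ℕ → Bool} (hf : Primrec₂ f) :
    Primrec₂ fun (a : α) (n : ℕ) => fnd (f a) n := by
  unfold fnd
  refine Primrec.nat_rec (f := fun _ : α => (none : Option ℕ))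
    (g := fun (a : α) (q : ℕ × Option ℕ) => q.2.elim (bif f a q.1 then some q.1 else none) some)
    (Primrec.const _) ?_
  exact primrec_elim (Primrec.snd.comp Primrec.snd)
    (Primrec.cond (hf.comp Primrec.fst (Primrec.fst.comp Primrec.snd))
      (Primrec.option_some.comp (Primrec.fst.comp Primrec.snd)) (Primrec.const none))
    (Primrec.option_some.comp Primrec.snd)

theorem fnd_succ (f : ℕ → Bool) (n : ℕ) :
    fnd f (n + 1) = (fnd f n).elim (bif f n then some n else none) some := rfl

theorem fnd_none {f : ℕ → Bool} {n : ℕ} : fnd f n = none ↔ ∀ t < n, f t = false := by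
  induction n with
  | zero => exact ⟨fun _ t ht => absurd ht (Nat.not_lt_zero t), fun _ => rfl⟩
  | succ n ih =>
    rw [fnd_succ]
    rcases h : fnd f n with _ | w
    · have h1 := ih.1 h
      rcases h2 : f n with _ | _
      · simp only [Option.elim_none, cond_false, true_iff]
        intro t ht
        rcases Nat.lt_succ_iff_lt_or_eq.1 ht with h3 | h3
        · exact h1 t h3
        · rw [h3, h2]
      · simp only [Option.elim_none, cond_true, reduceCtorEq, false_iff]
        intro h3
        rw [h3 n (Nat.lt_succ_self n)] at h2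
        exact Bool.false_ne_true h2
    · simp only [Option.elim_some, reduceCtorEq, false_iff]
      intro h3
      have h4 := ih.2 fun t ht => h3 t (Nat.lt_succ_of_lt ht)
      rw [h] at h4
      exact absurd h4 (by simp)

theorem fnd_spec {f : ℕ → Bool} {n t : ℕ} (h : fnd f n = some t) :
    t < n ∧ f t = true ∧ ∀ t' < t, f t' = false := by
  induction n with
  | zero => exact absurd h (by simp [fnd])
  | succ n ih =>
    rw [fnd_succ] at h
    rcases h1 : fnd f n with _ | w
    · rw [h1] at h
      rcases h2 : f n with _ | _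
      · simp [h2] at h
      · simp only [h2, Option.elim_none, cond_true, Option.some.injEq] at h
        subst h
        exact ⟨Nat.lt_succ_self _, h2, fnd_none.1 h1⟩
    · rw [h1] at h
      simp only [Option.elim_some, Option.some.injEq] at h
      subst h
      obtain ⟨h2, h3⟩ := ih h1
      exact ⟨Nat.lt_succ_of_lt h2, h3⟩

theorem fnd_of {f : ℕ → Bool} {n t : ℕ} (h1 : t < n) (h2 : f t = true)
    (h3 : ∀ t' < t, f t' = false) : fnd f n = some t := by
  rcases h : fnd f n with _ | w
  · have h4 := fnd_none.1 h t h1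
    rw [h2] at h4
    exact absurd h4.symm Bool.false_ne_true
  · obtain ⟨_, h5, h6⟩ := fnd_spec h
    rcases lt_trichotomy w t with h7 | h7 | h7
    · rw [h3 w h7] at h5
      exact absurd h5 Bool.false_ne_true
    · rw [h7]
    · rw [h6 t h7] at h2
      exact absurd h2 Bool.false_ne_true

theorem fnd_congr {f g : ℕ → Bool} {n : ℕ} (h : ∀ t < n, f t = g t) : fnd f n = fnd g n := by
  induction n with
  | zero => rfl
  | succ n ih =>
    rw [fnd_succ, fnd_succ, ih fun t ht => h t (Nat.lt_succ_of_lt ht), h n (Nat.lt_succ_self n)]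

theorem primrec_cnd : Primrec fun q : ℕ × ℕ × List Bool => cnd q.1 q.2.1 q.2.2 := by
  have hl : Primrec (fun q : ℕ × ℕ × List Bool => q.2.2.length) :=
    Primrec.list_length.comp (Primrec.snd.comp Primrec.snd)
  have h1 : Primrec (fun q : ℕ × ℕ × List Bool => decide (q.2.1 < q.2.2.length)) :=
    (PrimrecRel.comp Primrec.nat_lt (Primrec.fst.comp Primrec.snd) hl).decide
  have h2 : Primrec (fun q : ℕ × ℕ × List Bool => decide (q.1 < q.2.2.length)) :=
    (PrimrecRel.comp Primrec.nat_lt Primrec.fst hl).decide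
  have h3 : Primrec (fun q : ℕ × ℕ × List Bool => decide (2 ≤ q.1 % 4)) :=
    (PrimrecRel.comp Primrec.nat_le (Primrec.const 2)
      (Primrec.nat_mod.comp Primrec.fst (Primrec.const 4))).decide
  have h4 : Primrec (fun q : ℕ × ℕ × List Bool => V (q.1 / 4) q.2.2 q.2.1) :=
    primrec_V.comp ((Primrec.nat_div.comp Primrec.fst (Primrec.const 4)).pair
      ((Primrec.snd.comp Primrec.snd).pair (Primrec.fst.comp Primrec.snd)))
  have h5 : Primrec₂ (fun (q : ℕ × ℕ × List Bool) (u : ℕ) => decide (u < q.2.2.length)) :=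
    (PrimrecRel.comp Primrec.nat_lt Primrec.snd (hl.comp Primrec.fst)).decide
  exact Primrec.and.comp h1 (Primrec.and.comp h2 (Primrec.or.comp h3
    (primrec_elim h4 (Primrec.const false) h5)))

theorem primrec_bnd : Primrec₂ bnd := by
  unfold bnd
  refine Primrec.nat_rec (f := fun _ : List Bool => (0 : ℕ))
    (g := fun (σ : List Bool) (q : ℕ × ℕ) =>
      (fnd (fun t => cnd q.1 q.2 (σ.take t)) (σ.length + 1)).getD q.2) (Primrec.const _) ?_
  have h1 : Primrec₂ (fun (z : List Bool × ℕ × ℕ) (t : ℕ) => cnd z.2.1 z.2.2 (z.1.take t)) :=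
    primrec_cnd.comp ((Primrec.fst.comp (Primrec.snd.comp Primrec.fst)).pair
      ((Primrec.snd.comp (Primrec.snd.comp Primrec.fst)).pair
        (Primrec.list_take.comp Primrec.snd (Primrec.fst.comp Primrec.fst))))
  exact Primrec.option_getD.comp ((primrec_fnd h1).comp Primrec.id
    (Primrec.succ.comp (Primrec.list_length.comp Primrec.fst))) (Primrec.snd.comp Primrec.snd)

theorem primrec_cl : Primrec₂ fun (q : List Bool × ℕ) (i : ℕ) => cl q.1 q.2 i := by
  unfold cl
  refine Primrec.nat_rec (f := fun _ : List Bool × ℕ => true)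
    (g := fun (q : List Bool × ℕ) (r : ℕ × Bool) =>
      bif (decide (bnd q.1 r.1 ≤ q.2) && decide (q.2 < bnd q.1 (r.1 + 1))) then
        decide (r.1 % 2 = 0) else r.2)
    (Primrec.const _) ?_
  have hx : Primrec (fun z : (List Bool × ℕ) × (ℕ × Bool) => z.1.2) :=
    Primrec.snd.comp Primrec.fst
  have h1 : Primrec (fun z : (List Bool × ℕ) × (ℕ × Bool) => decide (bnd z.1.1 z.2.1 ≤ z.1.2)) :=
    (PrimrecRel.comp Primrec.nat_le (primrec_bnd.comp (Primrec.fst.comp Primrec.fst)
      (Primrec.fst.comp Primrec.snd)) hx).decide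
  have h2 : Primrec (fun z : (List Bool × ℕ) × (ℕ × Bool) =>
      decide (z.1.2 < bnd z.1.1 (z.2.1 + 1))) :=
    (PrimrecRel.comp Primrec.nat_lt hx (primrec_bnd.comp (Primrec.fst.comp Primrec.fst)
      (Primrec.succ.comp (Primrec.fst.comp Primrec.snd)))).decide
  have h3 : Primrec (fun z : (List Bool × ℕ) × (ℕ × Bool) => decide (z.2.1 % 2 = 0)) :=
    (PrimrecRel.comp Primrec.eq (Primrec.nat_mod.comp (Primrec.fst.comp Primrec.snd)
      (Primrec.const 2)) (Primrec.const 0)).decide
  exact Primrec.cond (Primrec.and.comp h1 h2) h3 (Primrec.snd.comp Primrec.snd)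

theorem primrec_bas : Primrec₂ bas :=
  primrec_cl.comp Primrec.id (Primrec.list_length.comp Primrec.fst)

/-! ### The blocks -/

/-- the condition for the closing of the `i`-th block with the lower bound `b` at stage `t` -/
def Q (p : ℕ → Bool) (i b t : ℕ) : Prop := cnd i b (pre p t) = true

theorem Q.lt {p : ℕ → Bool} {i b t : ℕ} (h : Q p i b t) : b < t ∧ i < t := by
  unfold Q cnd at h
  rw [pre_length, Bool.and_eq_true, Bool.and_eq_true, decide_eq_true_eq, decide_eq_true_eq] at h
  exact ⟨h.1, h.2.1⟩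

/-- the lower bound of the `i`-th block at stage `s` -/
def B (p : ℕ → Bool) (i s : ℕ) : ℕ := bnd (pre p s) i

theorem B_zero (p : ℕ → Bool) (s : ℕ) : B p 0 s = 0 := rfl

theorem B_succ (p : ℕ → Bool) (i s : ℕ) : B p (i + 1) s =
    (fnd (fun t => cnd i (B p i s) (pre p t)) (s + 1)).getD (B p i s) := by
  have h : B p (i + 1) s = (fnd (fun t => cnd i (B p i s) ((pre p s).take t))
      ((pre p s).length + 1)).getD (B p i s) := rfl
  rw [h, pre_length, fnd_congr fun t ht => by rw [pre_take p (Nat.lt_succ_iff.1 ht)]]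

theorem step (p : ℕ → Bool) (i s : ℕ) :
    (∃ c, c ≤ s ∧ Q p i (B p i s) c ∧ (∀ t < c, ¬ Q p i (B p i s) t) ∧ B p (i + 1) s = c) ∨
    ((∀ t ≤ s, ¬ Q p i (B p i s) t) ∧ B p (i + 1) s = B p i s) := by
  rw [B_succ]
  rcases h : fnd (fun t => cnd i (B p i s) (pre p t)) (s + 1) with _ | c
  · right
    refine ⟨fun t ht hQ => ?_, rfl⟩
    have h1 := fnd_none.1 h t (Nat.lt_succ_of_le ht)
    unfold Q at hQ
    rw [hQ] at h1
    exact Bool.false_ne_true h1.symm
  · left
    obtain ⟨h1, h2, h3⟩ := fnd_spec h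
    refine ⟨c, Nat.lt_succ_iff.1 h1, h2, fun t ht hQ => ?_, rfl⟩
    have h4 := h3 t ht
    unfold Q at hQ
    rw [hQ] at h4
    exact Bool.false_ne_true h4.symm

theorem step_some {p : ℕ → Bool} {i s c : ℕ} (h1 : c ≤ s) (h2 : Q p i (B p i s) c)
    (h3 : ∀ t < c, ¬ Q p i (B p i s) t) : B p (i + 1) s = c := by
  rcases step p i s with ⟨c', _, hc1, hc2, hc3⟩ | ⟨hn, _⟩
  · rw [hc3]
    rcases lt_trichotomy c c' with h | h | h
    · exact absurd h2 (hc2 c h)
    · exact h.symm
    · exact absurd hc1 (h3 c' h)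
  · exact absurd h2 (hn c h1)

theorem step_none {p : ℕ → Bool} {i s : ℕ} (h : ∀ t ≤ s, ¬ Q p i (B p i s) t) :
    B p (i + 1) s = B p i s := by
  rcases step p i s with ⟨c', hc0, hc1, _, _⟩ | ⟨_, h1⟩
  · exact absurd hc1 (h c' hc0)
  · exact h1

theorem B_le_succ (p : ℕ → Bool) (i s : ℕ) : B p i s ≤ B p (i + 1) s := by
  rcases step p i s with ⟨c, _, h1, _, h2⟩ | ⟨_, h1⟩
  · rw [h2]
    exact h1.lt.1.le
  · rw [h1]

theorem B_mono (p : ℕ → Bool) (s : ℕ) : Monotone fun i => B p i s :=
  monotone_nat_of_le_succ fun i => B_le_succ p i s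

theorem B_le_stage (p : ℕ → Bool) (i s : ℕ) : B p i s ≤ s := by
  induction i with
  | zero => exact Nat.zero_le _
  | succ i ih =>
    rcases step p i s with ⟨c, h0, _, _, h2⟩ | ⟨_, h1⟩
    · rw [h2]
      exact h0
    · rw [h1]
      exact ih

/-- Bounds persist. -/
theorem persist (p : ℕ → Bool) (i : ℕ) : ∀ s t, B p i s ≤ t → t ≤ s → B p i t = B p i s := by
  induction i with
  | zero => intro s t _ _; rfl
  | succ i ih =>
    intro s t h1 h2
    rcases step p i s with ⟨c, hc0, hc1, hc2, hc3⟩ | ⟨hn, hb⟩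
    · rw [hc3] at h1 ⊢
      have hb : B p i t = B p i s := ih s t (le_trans hc1.lt.1.le h1) h2
      exact step_some h1 (by rw [hb]; exact hc1) (by rw [hb]; exact hc2)
    · rw [hb] at h1 ⊢
      have hb' : B p i t = B p i s := ih s t h1 h2
      rw [← hb']
      exact step_none fun t' ht' => by rw [hb']; exact hn t' (le_trans ht' h2)

theorem cl_succ (σ : List Bool) (x i : ℕ) : cl σ x (i + 1) =
    bif (decide (bnd σ i ≤ x) && decide (x < bnd σ (i + 1))) then decide (i % 2 = 0)
      else cl σ x i := rfl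

/-- The side of the elements of a closed block. -/
theorem bas_closed {p : ℕ → Bool} {x i s : ℕ} (h1 : B p i s ≤ x) (h2 : x < B p (i + 1) s) :
    bas (pre p s) x = decide (i % 2 = 0) := by
  have h3 : i < s := by
    rcases step p i s with ⟨c, hc0, hc1, _, _⟩ | ⟨_, hb⟩
    · exact lt_of_lt_of_le hc1.lt.2 hc0
    · omega
  have h4 : ∀ m, i + 1 ≤ m → cl (pre p s) x m = decide (i % 2 = 0) := by
    intro m hm
    induction m, hm using Nat.le_induction with
    | base =>
      rw [cl_succ]
      have h1' : bnd (pre p s) i ≤ x := h1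
      have h2' : x < bnd (pre p s) (i + 1) := h2
      simp only [h1', h2', decide_true, Bool.and_self, cond_true]
    | succ m hm ih =>
      rw [cl_succ, ih]
      have h5 : ¬ bnd (pre p s) m ≤ x := not_le.2 (lt_of_lt_of_le h2 (B_mono p s hm))
      simp only [h5, decide_false, Bool.false_and, cond_false]
  unfold bas
  rw [pre_length]
  exact h4 s h3

/-- The side of the elements outside of the closed blocks. -/
theorem bas_open {p : ℕ → Bool} {x s : ℕ} (h : ∀ i, B p i s ≤ x) : bas (pre p s) x = true := by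
  unfold bas
  have h4 : ∀ m, cl (pre p s) x m = true := by
    intro m
    induction m with
    | zero => rfl
    | succ m ih =>
      rw [cl_succ, ih]
      have h5 : ¬ x < bnd (pre p s) (m + 1) := not_lt.2 (h (m + 1))
      simp only [h5, decide_false, Bool.and_false, cond_false]
  exact h4 _

theorem find_block {L : ℕ → ℕ} (h0 : L 0 = 0) {x m : ℕ} (hm : x < L m) :
    ∃ i < m, L i ≤ x ∧ x < L (i + 1) := by
  induction m with
  | zero => omega
  | succ m ih =>
    by_cases h : x < L m
    · obtain ⟨i, hi, h1⟩ := ih h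
      exact ⟨i, by omega, h1⟩
    · exact ⟨m, by omega, by omega, hm⟩

theorem bas_cases (p : ℕ → Bool) (x s : ℕ) :
    (∃ i, B p i s ≤ x ∧ x < B p (i + 1) s) ∨ ∀ i, B p i s ≤ x := by
  by_cases h : ∃ m, x < B p m s
  · obtain ⟨m, hm⟩ := h
    obtain ⟨i, _, hi⟩ := find_block (L := fun i => B p i s) (B_zero p s) hm
    exact Or.inl ⟨i, hi⟩
  · push Not at h
    exact Or.inr h

/-- The places of insertion define a linear ordering. -/
theorem trans_aux {p : ℕ → Bool} {x y z : ℕ} (hxy : x < y) (hyz : y < z)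
    (h : bas (pre p y) x = bas (pre p z) y) : bas (pre p z) x = bas (pre p y) x := by
  rcases bas_cases p x z with ⟨i, h1, h2⟩ | h1
  · by_cases h3 : y < B p (i + 1) z
    · rw [bas_closed h1 h2, h, bas_closed (by omega) h3]
    · have h4 : B p (i + 1) y = B p (i + 1) z := persist p (i + 1) z y (by omega) hyz.le
      have h5 : B p i y = B p i z :=
        persist p i z y (le_trans (B_le_succ p i z) (by omega)) hyz.le
      rw [bas_closed h1 h2, bas_closed (by rw [h5]; exact h1) (by rw [h4]; exact h2)]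
  · rw [bas_open h1, h, bas_open fun i => le_trans (h1 i) hxy.le]

/-! ### Convergence -/

theorem W_mono {e s s' : ℕ} {τ : List Bool} {n y : ℕ} (h : s ≤ s') (hy : W e s τ n = some y) :
    W e s' τ n = some y := by
  unfold W at hy ⊢
  obtain ⟨v, hv, hvy⟩ := Option.bind_eq_some_iff.1 hy
  have h2 : Code.evaln s' (ofNat Code e) (encode (τ, n)) = some v := Code.evaln_mono h hv
  rw [h2, Option.bind_some]
  exact hvy

theorem V_pre (e : ℕ) (p : ℕ → Bool) (s n : ℕ) :
    V e (pre p s) n = ((List.range s).filterMap fun k => W e s (pre p k) n).head? := by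
  unfold V
  rw [pre_length]
  congr 1
  refine List.filterMap_congr fun k hk => ?_
  rw [pre_take p (List.mem_range.1 hk).le]

theorem V_conv_some {p : ℕ → Bool} {e n : ℕ} (h : ∃ k s y, W e s (pre p k) n = some y) :
    ∃ k y, (∃ s, W e s (pre p k) n = some y) ∧ ∀ᶠ s in atTop, V e (pre p s) n = some y := by
  classical
  have hk := Nat.find_spec h
  obtain ⟨s0, y, hy⟩ := hk
  refine ⟨Nat.find h, y, ⟨s0, hy⟩, ?_⟩
  filter_upwards [eventually_ge_atTop (max s0 (Nat.find h + 1))] with s hs
  have h1 : s0 ≤ s := le_trans (le_max_left _ _) hs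
  have h2 : Nat.find h + 1 ≤ s := le_trans (le_max_right _ _) hs
  rw [V_pre]
  obtain ⟨t, rfl⟩ := Nat.exists_eq_add_of_le h2
  rw [List.range_add, List.range_succ, List.filterMap_append, List.filterMap_append]
  have h3 : (List.range (Nat.find h)).filterMap
      (fun k => W e (Nat.find h + 1 + t) (pre p k) n) = [] := by
    rw [List.filterMap_eq_nil_iff]
    intro k hk
    have h4 := Nat.find_min h (List.mem_range.1 hk)
    by_contra hcon
    obtain ⟨z, hz⟩ := Option.ne_none_iff_exists'.1 hcon
    exact h4 ⟨_, z, hz⟩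
  rw [h3, List.nil_append]
  simp only [List.filterMap_cons, List.filterMap_nil, W_mono h1 hy]
  rfl

theorem V_conv (p : ℕ → Bool) (e n : ℕ) : ∃ o, ∀ᶠ s in atTop, V e (pre p s) n = o := by
  by_cases h : ∃ k s y, W e s (pre p k) n = some y
  · obtain ⟨k, y, _, hy⟩ := V_conv_some h
    exact ⟨_, hy⟩
  · refine ⟨none, Eventually.of_forall fun s => ?_⟩
    rw [V_pre]
    have h3 : (List.range s).filterMap (fun k => W e s (pre p k) n) = [] := by
      rw [List.filterMap_eq_nil_iff]
      intro k hk
      by_contra hcon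
      obtain ⟨z, hz⟩ := Option.ne_none_iff_exists'.1 hcon
      exact h ⟨k, s, z, hz⟩
    rw [h3]
    rfl


/-! ### The limits of the bounds -/

theorem B_conv (p : ℕ → Bool) (i : ℕ) : ∃ b, ∀ᶠ s in atTop, B p i s = b := by
  induction i with
  | zero => exact ⟨0, Eventually.of_forall fun _ => rfl⟩
  | succ i ih =>
    obtain ⟨b, hb⟩ := ih
    by_cases h : ∃ t, Q p i b t
    · classical
      refine ⟨Nat.find h, ?_⟩
      filter_upwards [hb, eventually_ge_atTop (Nat.find h)] with s h1 h2
      exact step_some h2 (by rw [h1]; exact Nat.find_spec h)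
        (fun t ht => by rw [h1]; exact Nat.find_min h ht)
    · push Not at h
      refine ⟨b, ?_⟩
      filter_upwards [hb] with s h1
      rw [← h1]
      exact step_none fun t _ => by rw [h1]; exact h t

/-- the limit of the `i`-th bound -/
noncomputable def Lim (p : ℕ → Bool) (i : ℕ) : ℕ := (B_conv p i).choose

theorem Lim_spec (p : ℕ → Bool) (i : ℕ) : ∀ᶠ s in atTop, B p i s = Lim p i :=
  (B_conv p i).choose_spec

theorem Lim_zero (p : ℕ → Bool) : Lim p 0 = 0 := by
  obtain ⟨s, hs⟩ := (Lim_spec p 0).exists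
  rw [← hs]
  rfl

theorem Lim_succ {p : ℕ → Bool} {i : ℕ} (h : ∃ t, Q p i (Lim p i) t) :
    Q p i (Lim p i) (Lim p (i + 1)) := by
  obtain ⟨t, ht⟩ := h
  obtain ⟨s, h1, h2, h3⟩ :=
    ((Lim_spec p i).and ((Lim_spec p (i + 1)).and (eventually_ge_atTop t))).exists
  rcases step p i s with ⟨c, _, hc1, _, hc3⟩ | ⟨hn, _⟩
  · rw [h1] at hc1
    rw [← h2, hc3]
    exact hc1
  · rw [h1] at hn
    exact absurd ht (hn t h3)

theorem Lim_triv {p : ℕ → Bool} {i : ℕ} (h : 2 ≤ i % 4) :
    Lim p i < Lim p (i + 1) ∧ i < Lim p (i + 1) := by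
  refine (Lim_succ ⟨max (Lim p i) i + 1, ?_⟩).lt
  unfold Q cnd
  rw [pre_length, Bool.and_eq_true, Bool.and_eq_true, decide_eq_true_eq, decide_eq_true_eq]
  refine ⟨Nat.lt_succ_of_le (le_max_left _ _), Nat.lt_succ_of_le (le_max_right _ _), ?_⟩
  simp [h]

theorem bas_lim {p : ℕ → Bool} {x i : ℕ} (h1 : Lim p i ≤ x) (h2 : x < Lim p (i + 1)) :
    ∀ᶠ s in atTop, bas (pre p s) x = decide (i % 2 = 0) := by
  filter_upwards [Lim_spec p i, Lim_spec p (i + 1)] with s h3 h4
  exact bas_closed (by rw [h3]; exact h1) (by rw [h4]; exact h2)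

/-- The colouring is stable. -/
theorem bas_conv (p : ℕ → Bool) (x : ℕ) : ∃ a, ∀ᶠ s in atTop, bas (pre p s) x = a := by
  have h : x < Lim p (4 * x + 2 + 1) := by
    have h1 := (Lim_triv (p := p) (i := 4 * x + 2) (by omega)).2
    omega
  obtain ⟨i, _, h1, h2⟩ := find_block (Lim_zero p) h
  exact ⟨_, bas_lim h1 h2⟩

/-- Both sides are infinite. -/
theorem bas_both (p : ℕ → Bool) (a : Bool) (N : ℕ) :
    ∃ x, N ≤ x ∧ ∀ᶠ s in atTop, bas (pre p s) x = a := by
  rcases a with _ | _
  · have h := Lim_triv (p := p) (i := 4 * N + 3) (by omega)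
    refine ⟨Lim p (4 * N + 3 + 1) - 1, by omega, ?_⟩
    have h1 := bas_lim (p := p) (x := Lim p (4 * N + 3 + 1) - 1) (i := 4 * N + 3) (by omega)
      (by omega)
    have h2 : decide ((4 * N + 3) % 2 = 0) = false := by
      rw [decide_eq_false_iff_not]
      omega
    rwa [h2] at h1
  · have h := Lim_triv (p := p) (i := 4 * N + 2) (by omega)
    refine ⟨Lim p (4 * N + 2 + 1) - 1, by omega, ?_⟩
    have h1 := bas_lim (p := p) (x := Lim p (4 * N + 2 + 1) - 1) (i := 4 * N + 2) (by omega)
      (by omega)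
    have h2 : decide ((4 * N + 2) % 2 = 0) = true := by
      rw [decide_eq_true_eq]
      omega
    rwa [h2] at h1

/-! ### Hyperimmunity -/
theorem exists_code {Φ : List Bool → ℕ → Option ℕ} (hΦ : Computable₂ Φ) :
    ∃ e : ℕ, ∀ (σ : List Bool) (n : ℕ),
      Code.eval (ofNat Code e) (encode (σ, n)) = Part.some (encode (Φ σ n)) := by
  have hpart : Partrec (fun q : List Bool × ℕ => (Part.some (Φ q.1 q.2) : Part (Option ℕ))) :=
    hΦ
  obtain ⟨c, hc⟩ := Code.exists_code.1 hpart
  refine ⟨encode c, fun σ n => ?_⟩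
  rw [ofNat_encode, hc]
  simp

theorem W_code {Φ : List Bool → ℕ → Option ℕ} {e : ℕ}
    (he : ∀ (σ : List Bool) (n : ℕ),
      Code.eval (ofNat Code e) (encode (σ, n)) = Part.some (encode (Φ σ n)))
    (τ : List Bool) (n y : ℕ) : (∃ s, W e s τ n = some y) ↔ Φ τ n = some y := by
  constructor
  · rintro ⟨s, hs⟩
    unfold W at hs
    obtain ⟨v, hv, hvy⟩ := Option.bind_eq_some_iff.1 hs
    have h1 := Code.evaln_sound (Option.mem_def.2 hv)
    rw [he, Part.mem_some_iff] at h1
    rcases hΦ : Φ τ n with _ | z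
    · rw [hΦ] at h1
      subst h1
      simp at hvy
    · rw [hΦ] at h1
      subst h1
      simp at hvy
      rw [hvy]
  · intro h
    have h1 : encode (Φ τ n) ∈ Code.eval (ofNat Code e) (encode (τ, n)) := by
      rw [he]
      exact Part.mem_some _
    obtain ⟨s, hs⟩ := Code.evaln_complete.1 h1
    refine ⟨s, ?_⟩
    unfold W
    rw [Option.mem_def.1 hs, h]
    simp


theorem V_sound {p : ℕ → Bool} {e s n y : ℕ} (h : V e (pre p s) n = some y) :
    ∃ k, W e s (pre p k) n = some y := by
  rw [V_pre] at h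
  have h1 := List.mem_of_mem_head? (Option.mem_def.2 h)
  rw [List.mem_filterMap] at h1
  obtain ⟨k, _, hk⟩ := h1
  exact ⟨k, hk⟩

/-- Every infinite homogeneous set is hyperimmune relative to `p`. -/
theorem hyper {p h : ℕ → Bool} {a : Bool} {Φ : List Bool → ℕ → Option ℕ} (hΦ : Computable₂ Φ)
    (h1 : ∀ n, ∃ k y, Φ (pre p k) n = some y)
    (h2 : ∀ n k y, Φ (pre p k) n = some y → ∃ i, n ≤ i ∧ i ≤ y ∧ h i = true)
    (hinf : {n | h n = true}.Infinite)
    (hhom : ∀ x y, x < y → h x = true → h y = true → bas (pre p y) x = a) : False := by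
  obtain ⟨e, he⟩ := exists_code hΦ
  have key1 : ∀ n s y, V e (pre p s) n = some y → ∃ i, n ≤ i ∧ i ≤ y ∧ h i = true := by
    intro n s y hy
    obtain ⟨k, hk⟩ := V_sound hy
    exact h2 n k y ((W_code he (pre p k) n y).1 ⟨s, hk⟩)
  have key2 : ∀ n, ∃ y, ∀ᶠ s in atTop, V e (pre p s) n = some y := by
    intro n
    obtain ⟨k, y, hy⟩ := h1 n
    obtain ⟨s, hs⟩ := (W_code he (pre p k) n y).2 hy
    obtain ⟨_, y', _, hev⟩ := V_conv_some (p := p) (e := e) (n := n) ⟨k, s, y, hs⟩
    exact ⟨y', hev⟩
  have key : ∀ i, i / 4 = e → i % 4 < 2 → ∃ x, h x = true ∧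
      ∀ᶠ s in atTop, bas (pre p s) x = decide (i % 2 = 0) := by
    intro i hi1 hi2
    obtain ⟨y, hy⟩ := key2 (Lim p i)
    have hQ : Q p i (Lim p i) (Lim p (i + 1)) := by
      refine Lim_succ ?_
      obtain ⟨t, ht1, ht2⟩ := (hy.and (eventually_gt_atTop (max y (max i (Lim p i))))).exists
      refine ⟨t, ?_⟩
      unfold Q cnd
      have h3 : y < t := lt_of_le_of_lt (le_max_left _ _) ht2
      have h4 : i < t := lt_of_le_of_lt (le_trans (le_max_left _ _) (le_max_right _ _)) ht2
      have h5 : Lim p i < t := lt_of_le_of_lt (le_trans (le_max_right _ _) (le_max_right _ _)) ht2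
      rw [pre_length, hi1, ht1]
      simp [h3, h4, h5]
    have hQ' := hQ
    unfold Q cnd at hQ'
    rw [pre_length, hi1, Bool.and_eq_true, Bool.and_eq_true, Bool.or_eq_true] at hQ'
    obtain ⟨_, _, h6⟩ := hQ'
    rcases h6 with h6 | h6
    · rw [decide_eq_true_eq] at h6
      omega
    · rcases h7 : V e (pre p (Lim p (i + 1))) (Lim p i) with _ | u
      · rw [h7] at h6
        exact absurd h6 (by simp)
      · rw [h7, Option.elim_some, decide_eq_true_eq] at h6
        obtain ⟨x, hx1, hx2, hx3⟩ := key1 _ _ _ h7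
        exact ⟨x, hx3, bas_lim hx1 (lt_of_le_of_lt hx2 h6)⟩
  obtain ⟨x, hx, hxl⟩ := key (4 * e) (by omega) (by omega)
  obtain ⟨y, hy, hyl⟩ := key (4 * e + 1) (by omega) (by omega)
  have e1 : decide (4 * e % 2 = 0) = true := by
    rw [decide_eq_true_eq]
    omega
  have e2 : decide ((4 * e + 1) % 2 = 0) = false := by
    rw [decide_eq_false_iff_not]
    omega
  rw [e1] at hxl
  rw [e2] at hyl
  have hfr : ∃ᶠ s in atTop, h s = true := Nat.frequently_atTop_iff_infinite.2 hinf
  obtain ⟨s, hs, h3, h4, h5⟩ := (hfr.and_eventually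
    (hxl.and (hyl.and (eventually_gt_atTop (max x y))))).exists
  have h6 : x < s := lt_of_le_of_lt (le_max_left _ _) h5
  have h7 : y < s := lt_of_le_of_lt (le_max_right _ _) h5
  rw [hhom x s h6 hx hs] at h3
  rw [hhom y s h7 hy hs, h3] at h4
  exact Bool.false_ne_true h4.symm

end Pool.Agent.Y534.NLO
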