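import Pool.Agent.Results.MP_743c94_lc.Full

/-!
The problems `HYP`, `SADS` and `SRT22`.
-/

set_option autoImplicit false

namespace Pool.Agent.Y534.NLO

open Pool.Agent.Results.MP_743c94_lc.Full (Problem RT22)

/-- The problem `HYP`: a solution of `p` is (the characteristic function of) an infinite set whose
principal function is not dominated by any function computable from `p`: whatever the function `g`
computable from `p`, there are arbitrarily large `n` such that the `n`-th element of the set is
larger than `g n`. -/
def HYP : Problem where
  dom := Set.univ
  sol := fun p => {q | {n | q n = true}.Infinite ∧ ∀ g : ℕ → ℕ,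
    TuringReducible (fun n => Part.some (g n)) (fun n => Part.some (p n).toNat) →
      ∀ N, ∃ n, N ≤ n ∧ g n < Nat.nth (fun i => q i = true) n}

/-- The binary relation coded by `c`. -/
def Rel (c : ℕ → Bool) (x y : ℕ) : Prop := c (Nat.pair x y) = true

/-- The stable ascending-descending-sequence principle. The instances are the (strict) linear
orderings of the natural numbers of order type `ω + ω*`: every element has only finitely many
predecessors or only finitely many successors, and there are infinitely many elements of both
kinds. A solution is (the characteristic function of) an infinite set on which the ordering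
coincides with the usual ordering of the natural numbers (an ascending sequence) or with its reverse
(a descending sequence). -/
def SADS : Problem where
  dom := {c | (∀ x, ¬ Rel c x x) ∧ (∀ x y z, Rel c x y → Rel c y z → Rel c x z) ∧
    (∀ x y, x ≠ y → Rel c x y ∨ Rel c y x) ∧
    (∀ x, {y | Rel c y x}.Finite ∨ {y | Rel c x y}.Finite) ∧
    {x | {y | Rel c y x}.Finite}.Infinite ∧ {x | {y | Rel c x y}.Finite}.Infinite}
  sol := fun c => {h | {n | h n = true}.Infinite ∧
    ((∀ x y, x < y → h x = true → h y = true → Rel c x y) ∨
      (∀ x y, x < y → h x = true → h y = true → Rel c y x))}

/-- Ramsey's theorem for stable colourings of pairs with two colours: the instances are the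
colourings `c` for which the colour of `x < y` does not depend on `y` once `y` is large. -/
def SRT22 : Problem where
  dom := {c | ∀ x, ∃ a : Bool, ∃ N, ∀ y, N ≤ y → c (Nat.pair x y) = a}
  sol := RT22.sol

end Pool.Agent.Y534.NLO
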