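import Pool.Agent.Y534.NL.Order
import Pool.Agent.Y534.NL.Prob

/-!
The reduction of `HYP × LLPO` to the stable ascending-descending-sequence principle.
-/

set_option autoImplicit false

namespace Pool.Agent.Y534.NLO

open Encodable Denumerable
open Nat.Partrec (Code)
open Pool.Agent.Results.MP_743c94_lc.Full (pre pre_length pre_take pre_getElem? pre_getElem?_some
  Computes ComputableMap Problem IsRealizer join left right WeihrauchReducible prod NON LLPO RT22
  left_join right_join evens flips primrec_evens primrec_flips primrec_elim evens_pre mem_flips_pre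
  FirstTwo FirstTwo.unique flips_getElem flips_firstTwo exists_firstTwo flips_head Approx
  use_principle pre_getD)

/-- The colour of the pair `x < y`. -/
noncomputable def col (τ : List Bool) (x y : ℕ) : Bool :=
  (flips y τ)[0]?.elim (bas (evens y τ) x)
    (fun j => bif decide (x ≤ j) then decide (j % 2 = 0) else bas (evens y τ) x)

/-- The answer read off from the first two elements `a < b` of a homogeneous set. -/
noncomputable def answ (τ : List Bool) (a b : ℕ) : Bool :=
  (flips b τ)[0]?.elim (col τ a b) (fun j => decide (j % 2 = 0))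

theorem primrec_col : Primrec (fun q : List Bool × ℕ × ℕ => col q.1 q.2.1 q.2.2) := by
  have hb : Primrec (fun q : List Bool × ℕ × ℕ => bas (evens q.2.2 q.1) q.2.1) :=
    primrec_bas.comp (primrec_evens.comp (Primrec.snd.comp Primrec.snd) Primrec.fst)
      (Primrec.fst.comp Primrec.snd)
  have hfl : Primrec (fun q : List Bool × ℕ × ℕ => (flips q.2.2 q.1)[0]?) :=
    Primrec.list_getElem?.comp (primrec_flips.comp (Primrec.snd.comp Primrec.snd) Primrec.fst)
      (Primrec.const 0)
  refine primrec_elim hfl hb ?_
  have h1 : Primrec (fun r : (List Bool × ℕ × ℕ) × ℕ => decide (r.1.2.1 ≤ r.2)) :=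
    (PrimrecRel.comp Primrec.nat_le (Primrec.fst.comp (Primrec.snd.comp Primrec.fst))
      Primrec.snd).decide
  have h2 : Primrec (fun r : (List Bool × ℕ × ℕ) × ℕ => decide (r.2 % 2 = 0)) :=
    (PrimrecRel.comp Primrec.eq (Primrec.nat_mod.comp Primrec.snd (Primrec.const 2))
      (Primrec.const 0)).decide
  exact Primrec.cond h1 h2 (hb.comp Primrec.fst)

theorem primrec_answ : Primrec (fun q : List Bool × ℕ × ℕ => answ q.1 q.2.1 q.2.2) := by
  have hfl : Primrec (fun q : List Bool × ℕ × ℕ => (flips q.2.2 q.1)[0]?) :=
    Primrec.list_getElem?.comp (primrec_flips.comp (Primrec.snd.comp Primrec.snd) Primrec.fst)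
      (Primrec.const 0)
  refine primrec_elim hfl primrec_col ?_
  exact (PrimrecRel.comp Primrec.eq (Primrec.nat_mod.comp Primrec.snd (Primrec.const 2))
      (Primrec.const 0)).decide

/-- The relation between `x` and `y`: `x` is below `y`. -/
noncomputable def clo (τ : List Bool) (x y : ℕ) : Bool :=
  bif decide (x < y) then col τ x y else bif decide (y < x) then !(col τ y x) else false

theorem primrec_clo : Primrec (fun q : List Bool × ℕ × ℕ => clo q.1 q.2.1 q.2.2) := by
  have hx : Primrec (fun q : List Bool × ℕ × ℕ => q.2.1) := Primrec.fst.comp Primrec.snd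
  have hy : Primrec (fun q : List Bool × ℕ × ℕ => q.2.2) := Primrec.snd.comp Primrec.snd
  have h1 : Primrec (fun q : List Bool × ℕ × ℕ => decide (q.2.1 < q.2.2)) :=
    (PrimrecRel.comp Primrec.nat_lt hx hy).decide
  have h2 : Primrec (fun q : List Bool × ℕ × ℕ => decide (q.2.2 < q.2.1)) :=
    (PrimrecRel.comp Primrec.nat_lt hy hx).decide
  have h3 : Primrec (fun q : List Bool × ℕ × ℕ => !(col q.1 q.2.2 q.2.1)) :=
    Primrec.not.comp (primrec_col.comp (Primrec.fst.pair (hy.pair hx)))
  exact Primrec.cond h1 primrec_col (Primrec.cond h2 h3 (Primrec.const false))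

/-- The forward word function. -/
noncomputable def wordK (τ : List Bool) (m : ℕ) : Option Bool :=
  bif decide (τ.length = 2 * max m.unpair.1 m.unpair.2) then
    some (clo τ m.unpair.1 m.unpair.2) else none

theorem primrec_wordK : Primrec₂ wordK := by
  have hu : Primrec (fun q : List Bool × ℕ => q.2.unpair) := Primrec.unpair.comp Primrec.snd
  have h1 : Primrec (fun q : List Bool × ℕ =>
      decide (q.1.length = 2 * max q.2.unpair.1 q.2.unpair.2)) :=
    (PrimrecRel.comp Primrec.eq (Primrec.list_length.comp Primrec.fst)
      (Primrec.nat_double.comp (Primrec.nat_max.comp (Primrec.fst.comp hu)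
        (Primrec.snd.comp hu)))).decide
  have h2 : Primrec (fun q : List Bool × ℕ => some (clo q.1 q.2.unpair.1 q.2.unpair.2)) :=
    Primrec.option_some.comp (primrec_clo.comp (Primrec.fst.pair hu))
  exact Primrec.cond h1 h2 (Primrec.const none)

/-- The linear ordering attached to an instance. -/
noncomputable def mapK (r : ℕ → Bool) (m : ℕ) : Bool :=
  clo (pre r (2 * max m.unpair.1 m.unpair.2)) m.unpair.1 m.unpair.2

theorem computes_mapK (r : ℕ → Bool) : Computes wordK r (mapK r) := by
  intro m
  constructor
  · refine ⟨2 * max m.unpair.1 m.unpair.2, ?_⟩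
    simp only [wordK, mapK, pre_length, decide_true, cond_true]
  · intro k b hb
    by_cases hk : k = 2 * max m.unpair.1 m.unpair.2
    · subst hk
      simp only [wordK, pre_length, decide_true, cond_true, Option.some.injEq] at hb
      exact hb.symm
    · simp only [wordK, pre_length, hk, decide_false, cond_false, reduceCtorEq] at hb

/-- The colour of the pair `x < y`: `true` if `x` is below `y`. -/
noncomputable def C (r : ℕ → Bool) (x y : ℕ) : Bool := col (pre r (2 * y)) x y

theorem mapK_lt {r : ℕ → Bool} {x y : ℕ} (h : x < y) : mapK r (Nat.pair x y) = C r x y := by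
  unfold mapK clo C
  rw [Nat.unpair_pair]
  simp only [h, decide_true, cond_true, max_eq_right h.le]

theorem mapK_gt {r : ℕ → Bool} {x y : ℕ} (h : y < x) : mapK r (Nat.pair x y) = !(C r y x) := by
  unfold mapK clo C
  rw [Nat.unpair_pair]
  simp only [h, not_lt.2 h.le, decide_true, decide_false, cond_true, cond_false, max_eq_left h.le]

theorem mapK_self (r : ℕ → Bool) (x : ℕ) : mapK r (Nat.pair x x) = false := by
  unfold mapK clo
  rw [Nat.unpair_pair]
  simp only [lt_irrefl, decide_false, cond_false]

/-! ### The backward map -/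

/-- The answer computed from an initial segment of the pair (instance, homogeneous set). -/
noncomputable def ansWord (τ : List Bool) : Option Bool :=
  ((flips (τ.length / 2) τ)[0]?).bind fun a => ((flips (τ.length / 2) τ)[1]?).bind fun b =>
    bif decide (4 * b ≤ τ.length) then some (answ (evens (2 * b) τ) a b) else none

theorem primrec_ansWord : Primrec ansWord := by
  have hhalf : Primrec (fun τ : List Bool => τ.length / 2) :=
    Primrec.nat_div.comp Primrec.list_length (Primrec.const 2)
  have hfl : Primrec (fun τ : List Bool => flips (τ.length / 2) τ) :=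
    primrec_flips.comp hhalf Primrec.id
  refine Primrec.option_bind (Primrec.list_getElem?.comp hfl (Primrec.const 0)) ?_
  have h1 : Primrec (fun q : List Bool × ℕ => (flips (q.1.length / 2) q.1)[1]?) :=
    Primrec.list_getElem?.comp (hfl.comp Primrec.fst) (Primrec.const 1)
  refine Primrec.option_bind h1 ?_
  have h2 : Primrec (fun q : (List Bool × ℕ) × ℕ => decide (4 * q.2 ≤ q.1.1.length)) :=
    (PrimrecRel.comp Primrec.nat_le (Primrec.nat_mul.comp (Primrec.const 4) Primrec.snd)
      (Primrec.list_length.comp (Primrec.fst.comp Primrec.fst))).decide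
  have h3 : Primrec (fun q : (List Bool × ℕ) × ℕ =>
      some (answ (evens (2 * q.2) q.1.1) q.1.2 q.2)) := by
    refine Primrec.option_some.comp (primrec_answ.comp (Primrec.pair ?_
      (Primrec.pair (Primrec.snd.comp Primrec.fst) Primrec.snd)))
    exact primrec_evens.comp (Primrec.nat_double.comp Primrec.snd)
      (Primrec.fst.comp Primrec.fst)
  exact Primrec.cond h2 h3 (Primrec.const none)

/-- The backward word function. -/
noncomputable def wordH (τ : List Bool) (m : ℕ) : Option Bool :=
  bif decide (m % 2 = 0) then τ[m + 1]? else ansWord τ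

theorem primrec_wordH : Primrec₂ wordH := by
  have h1 : Primrec (fun q : List Bool × ℕ => decide (q.2 % 2 = 0)) :=
    (PrimrecRel.comp Primrec.eq (Primrec.nat_mod.comp Primrec.snd (Primrec.const 2))
      (Primrec.const 0)).decide
  exact Primrec.cond h1 (Primrec.list_getElem?.comp Primrec.fst (Primrec.succ.comp Primrec.snd))
    (primrec_ansWord.comp Primrec.fst)

/-- The backward map, defined when the set has at least two elements. -/
noncomputable def mapH : (ℕ → Bool) →. (ℕ → Bool) := fun s =>
  ⟨∃ ab : ℕ × ℕ, FirstTwo (right s) ab.1 ab.2, fun hd =>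
    join (right s) (fun _ => answ (pre (left s) (2 * hd.choose.2)) hd.choose.1 hd.choose.2)⟩

theorem mem_mapH {s q : ℕ → Bool} : q ∈ mapH s ↔ ∃ a b, FirstTwo (right s) a b ∧
    q = join (right s) (fun _ => answ (pre (left s) (2 * b)) a b) := by
  constructor
  · rintro ⟨hd, rfl⟩
    have hd' : ∃ ab : ℕ × ℕ, FirstTwo (right s) ab.1 ab.2 := hd
    exact ⟨hd'.choose.1, hd'.choose.2, hd'.choose_spec, rfl⟩
  · rintro ⟨a, b, hab, rfl⟩
    have hd : ∃ ab : ℕ × ℕ, FirstTwo (right s) ab.1 ab.2 := ⟨(a, b), hab⟩
    refine ⟨hd, ?_⟩
    obtain ⟨e1, e2⟩ := hab.unique hd.choose_spec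
    change join (right s) (fun _ => answ (pre (left s) (2 * hd.choose.2)) hd.choose.1
      hd.choose.2) = _
    rw [← e1, ← e2]

theorem computes_mapH {s q : ℕ → Bool} (hq : q ∈ mapH s) : Computes wordH s q := by
  obtain ⟨a, b, hab, rfl⟩ := mem_mapH.1 hq
  intro m
  by_cases hm : m % 2 = 0
  · have hval : join (right s) (fun _ => answ (pre (left s) (2 * b)) a b) m = s (m + 1) := by
      have : 2 * (m / 2) + 1 = m + 1 := by omega
      simp only [join, hm, if_true, right, this]
    rw [hval]
    constructor
    · refine ⟨m + 2, ?_⟩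
      simp only [wordH, hm, decide_true, cond_true]
      exact pre_getElem? s (by omega)
    · intro k v hv
      simp only [wordH, hm, decide_true, cond_true] at hv
      exact pre_getElem?_some hv
  · have hval : join (right s) (fun _ => answ (pre (left s) (2 * b)) a b) m =
        answ (pre (left s) (2 * b)) a b := by
      simp only [join, hm, if_false]
    rw [hval]
    have hw : ∀ τ, wordH τ m = ansWord τ := by
      intro τ; simp [wordH, hm]
    simp only [hw]
    constructor
    · refine ⟨4 * b + 4, ?_⟩
      have hk : 2 * ((4 * b + 4) / 2) ≤ 4 * b + 4 := by omega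
      obtain ⟨h0, h1⟩ := flips_firstTwo hk (by omega) hab
      unfold ansWord
      rw [pre_length, h0, h1]
      simp only [Option.bind_some]
      rw [evens_pre s (by omega)]
      simp
    · intro k v hv
      unfold ansWord at hv
      rw [pre_length] at hv
      rcases h0 : (flips (k / 2) (pre s k))[0]? with _ | a'
      · rw [h0] at hv; simp at hv
      rcases h1 : (flips (k / 2) (pre s k))[1]? with _ | b'
      · rw [h0, h1] at hv; simp at hv
      obtain ⟨_, h2⟩ := flips_getElem (by omega) h0 h1
      obtain ⟨e1, e2⟩ := hab.unique h2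
      subst e1 e2
      rw [h0, h1] at hv
      simp only [Option.bind_some] at hv
      by_cases hle : 4 * b ≤ k
      · simp only [hle, decide_true, cond_true, Option.some.injEq] at hv
        rw [← hv, evens_pre s (by omega)]
      · simp [hle] at hv

/-! ### Correctness -/

theorem colour_crossing {r : ℕ → Bool} (hr : ∀ m n, right r m = true → right r n = true → m = n)
    {j x y : ℕ} (hj : right r j = true) (hx : x ≤ j) (hy : j < y) :
    C r x y = decide (j % 2 = 0) := by
  unfold C col
  rw [(flips_head (k := 2 * y) le_rfl hr).1 j hy hj]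
  simp [hx]

theorem colour_after {r : ℕ → Bool} (hr : ∀ m n, right r m = true → right r n = true → m = n)
    {j x y : ℕ} (hj : right r j = true) (hx : j < x) (hy : j < y) :
    C r x y = bas (pre (left r) y) x := by
  unfold C col
  rw [(flips_head (k := 2 * y) le_rfl hr).1 j hy hj, evens_pre r (by omega)]
  simp [not_le.2 hx]

theorem colour_none {r : ℕ → Bool} (hr : ∀ m n, right r m = true → right r n = true → m = n)
    {x y : ℕ} (hno : ∀ j, j < y → right r j = false) :
    C r x y = bas (pre (left r) y) x := by
  unfold C col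
  rw [(flips_head (k := 2 * y) le_rfl hr).2 hno, evens_pre r (by omega)]
  rfl

/-- The answer computed from a solution is correct. -/
theorem llpo_part {r h : ℕ → Bool} (hr : ∀ m n, right r m = true → right r n = true → m = n)
    (hinf : {n | h n = true}.Infinite) {c : Bool}
    (hhom : ∀ x y, x < y → h x = true → h y = true → C r x y = c)
    {a b : ℕ} (hab : FirstTwo h a b) (n : ℕ) :
    right r (2 * n + (answ (pre r (2 * b)) a b).toNat) = false := by
  by_contra hcon
  have hj : right r (2 * n + (answ (pre r (2 * b)) a b).toNat) = true := by simpa using hcon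
  set j := 2 * n + (answ (pre r (2 * b)) a b).toNat with hjdef
  have hans : answ (pre r (2 * b)) a b = decide (j % 2 = 0) := by
    by_cases hjb : j < b
    · unfold answ
      rw [(flips_head (k := 2 * b) le_rfl hr).1 j hjb hj]
      rfl
    · have hno : ∀ i, i < b → right r i = false := by
        intro i hi
        by_contra hi'
        have hi'' : right r i = true := by simpa using hi'
        have := hr i j hi'' hj
        omega
      unfold answ
      rw [(flips_head (k := 2 * b) le_rfl hr).2 hno]
      change C r a b = _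
      rw [hhom a b hab.1 hab.2.1 hab.2.2.1]
      obtain ⟨y, hy, hlt⟩ := hinf.exists_gt (max j a)
      have h1 : j < y := lt_of_le_of_lt (le_max_left _ _) hlt
      have h2 : a < y := lt_of_le_of_lt (le_max_right _ _) hlt
      rw [← hhom a y h2 hab.2.1 hy]
      exact colour_crossing hr hj (by have := hab.1; omega) h1
  rcases hb : answ (pre r (2 * b)) a b with _ | _
  · rw [hb] at hjdef hans
    simp only [Bool.toNat_false] at hjdef
    have : j % 2 = 0 := by omega
    simp [this] at hans
  · rw [hb] at hjdef hans
    simp only [Bool.toNat_true] at hjdef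
    have : ¬ (j % 2 = 0) := by omega
    simp [this] at hans


/-- The linear ordering attached to an instance is stable. -/
theorem C_stable {r : ℕ → Bool} (hr : ∀ m n, right r m = true → right r n = true → m = n)
    (x : ℕ) : ∃ a : Bool, ∀ᶠ y in Filter.atTop, C r x y = a := by
  obtain ⟨a, ha⟩ := bas_conv (left r) x
  by_cases hex : ∃ j, right r j = true
  · obtain ⟨j, hj⟩ := hex
    by_cases hx : x ≤ j
    · refine ⟨decide (j % 2 = 0), ?_⟩
      filter_upwards [Filter.eventually_gt_atTop j] with y hy
      exact colour_crossing hr hj hx hy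
    · refine ⟨a, ?_⟩
      filter_upwards [ha, Filter.eventually_gt_atTop j] with y h1 h2
      rw [colour_after hr hj (by omega) h2, h1]
  · push Not at hex
    refine ⟨a, ?_⟩
    filter_upwards [ha] with y h1
    rw [colour_none hr (x := x) (y := y) fun j _ => by simpa using hex j, h1]

/-- Both sides are infinite. -/
theorem C_both {r : ℕ → Bool} (hr : ∀ m n, right r m = true → right r n = true → m = n)
    (a : Bool) (N : ℕ) : ∃ x, N ≤ x ∧ ∀ᶠ y in Filter.atTop, C r x y = a := by
  by_cases hex : ∃ j, right r j = true
  · obtain ⟨j, hj⟩ := hex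
    obtain ⟨x, hx, ha⟩ := bas_both (left r) a (max N (j + 1))
    refine ⟨x, le_trans (le_max_left _ _) hx, ?_⟩
    have h3 : j + 1 ≤ x := le_trans (le_max_right _ _) hx
    filter_upwards [ha, Filter.eventually_gt_atTop j] with y h1 h2
    rw [colour_after hr hj (by omega) h2, h1]
  · push Not at hex
    obtain ⟨x, hx, ha⟩ := bas_both (left r) a N
    refine ⟨x, hx, ?_⟩
    filter_upwards [ha] with y h1
    rw [colour_none hr (x := x) (y := y) fun j _ => by simpa using hex j, h1]

/-- The colouring describes a linear ordering. -/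
theorem C_trans {r : ℕ → Bool} (hr : ∀ m n, right r m = true → right r n = true → m = n)
    {x y z : ℕ} (hxy : x < y) (hyz : y < z) (h : C r x y = C r y z) : C r x z = C r x y := by
  by_cases hex : ∃ j, right r j = true
  · obtain ⟨j, hj⟩ := hex
    by_cases h1 : j < x
    · rw [colour_after hr hj h1 (by omega), colour_after hr hj (by omega) (by omega)] at h
      rw [colour_after hr hj h1 (by omega), colour_after hr hj h1 (by omega)]
      exact trans_aux hxy hyz h
    · by_cases h2 : j < y
      · rw [colour_crossing hr hj (by omega) h2, colour_crossing hr hj (by omega) (by omega)]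
      · by_cases h3 : j < z
        · rw [h, colour_crossing hr hj (by omega) h3, colour_crossing hr hj (by omega) h3]
        · have hno : ∀ w, w ≤ j → ∀ i, i < w → right r i = false := by
            intro w hw i hi
            by_contra hi'
            have hi'' : right r i = true := by simpa using hi'
            have := hr i j hi'' hj
            omega
          rw [colour_none hr (hno y (by omega)), colour_none hr (hno z (by omega))] at h
          rw [colour_none hr (hno z (by omega)), colour_none hr (hno y (by omega))]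
          exact trans_aux hxy hyz h
  · push Not at hex
    have hno : ∀ w i, i < w → right r i = false := fun w i _ => by simpa using hex i
    rw [colour_none hr (hno y), colour_none hr (hno z)] at h
    rw [colour_none hr (hno z), colour_none hr (hno y)]
    exact trans_aux hxy hyz h

theorem rel_lt {r : ℕ → Bool} {x y : ℕ} (h : x < y) : Rel (mapK r) x y ↔ C r x y = true := by
  unfold Rel
  rw [mapK_lt h]

theorem rel_gt {r : ℕ → Bool} {x y : ℕ} (h : y < x) : Rel (mapK r) x y ↔ C r y x = false := by
  unfold Rel
  rw [mapK_gt h, Bool.not_eq_true']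

theorem rel_self {r : ℕ → Bool} {x : ℕ} : ¬ Rel (mapK r) x x := by
  unfold Rel
  rw [mapK_self]
  exact Bool.false_ne_true

theorem rel_trans {r : ℕ → Bool} (hr : ∀ m n, right r m = true → right r n = true → m = n)
    {x y z : ℕ} (h1 : Rel (mapK r) x y) (h2 : Rel (mapK r) y z) : Rel (mapK r) x z := by
  have T : ∀ {x y z : ℕ}, x < y → y < z → C r x y = C r y z → C r x z = C r x y :=
    fun hxy hyz h => C_trans hr hxy hyz h
  rcases lt_trichotomy x y with hxy | hxy | hxy
  · rw [rel_lt hxy] at h1
    rcases lt_trichotomy y z with hyz | hyz | hyz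
    · rw [rel_lt hyz] at h2
      rw [rel_lt (by omega), T hxy hyz (by rw [h1, h2]), h1]
    · rw [← hyz, rel_lt hxy]
      exact h1
    · rw [rel_gt hyz] at h2
      rcases lt_trichotomy x z with hxz | hxz | hxz
      · rw [rel_lt hxz]
        by_contra hcon
        rw [Bool.not_eq_true] at hcon
        have := T hxz hyz (by rw [hcon, h2])
        rw [hcon, h1] at this
        exact Bool.false_ne_true this.symm
      · subst hxz
        rw [h1] at h2
        exact absurd h2.symm Bool.false_ne_true
      · rw [rel_gt hxz]
        by_contra hcon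
        rw [Bool.not_eq_false] at hcon
        have := T hxz hxy (by rw [hcon, h1])
        rw [hcon, h2] at this
        exact Bool.false_ne_true this
  · rw [hxy]
    exact h2
  · rw [rel_gt hxy] at h1
    rcases lt_trichotomy y z with hyz | hyz | hyz
    · rw [rel_lt hyz] at h2
      rcases lt_trichotomy x z with hxz | hxz | hxz
      · rw [rel_lt hxz]
        by_contra hcon
        rw [Bool.not_eq_true] at hcon
        have := T hxy hxz (by rw [hcon, h1])
        rw [h1, h2] at this
        exact Bool.false_ne_true this.symm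
      · subst hxz
        rw [h1] at h2
        exact absurd h2 Bool.false_ne_true
      · rw [rel_gt hxz]
        by_contra hcon
        rw [Bool.not_eq_false] at hcon
        have := T hyz hxz (by rw [hcon, h2])
        rw [h1, h2] at this
        exact Bool.false_ne_true this
    · rw [← hyz, rel_gt hxy]
      exact h1
    · rw [rel_gt hyz] at h2
      rw [rel_gt (by omega), T hyz hxy (by rw [h1, h2]), h2]

/-- The relation attached to an instance is a linear ordering of type `ω + ω*`. -/
theorem mapK_sads {r : ℕ → Bool} (hr : ∀ m n, right r m = true → right r n = true → m = n) :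
    mapK r ∈ SADS.dom := by
  have key : ∀ x a, (∀ᶠ y in Filter.atTop, C r x y = a) →
      (a = true → {y | Rel (mapK r) y x}.Finite) ∧ (a = false → {y | Rel (mapK r) x y}.Finite) := by
    intro x a h
    obtain ⟨N, hN⟩ := Filter.eventually_atTop.1 h
    constructor
    · rintro rfl
      refine (Set.finite_le_nat (max x N)).subset fun y hy => ?_
      by_contra hcon
      have h1 : ¬ y ≤ max x N := hcon
      have h2 : x < y := lt_of_le_of_lt (le_max_left x N) (not_le.1 h1)
      have h3 : N ≤ y := (lt_of_le_of_lt (le_max_right x N) (not_le.1 h1)).le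
      have h4 : Rel (mapK r) y x := hy
      rw [rel_gt h2, hN y h3] at h4
      exact Bool.false_ne_true h4.symm
    · rintro rfl
      refine (Set.finite_le_nat (max x N)).subset fun y hy => ?_
      by_contra hcon
      have h1 : ¬ y ≤ max x N := hcon
      have h2 : x < y := lt_of_le_of_lt (le_max_left x N) (not_le.1 h1)
      have h3 : N ≤ y := (lt_of_le_of_lt (le_max_right x N) (not_le.1 h1)).le
      have h4 : Rel (mapK r) x y := hy
      rw [rel_lt h2, hN y h3] at h4
      exact Bool.false_ne_true h4
  refine ⟨fun x => rel_self, fun x y z h1 h2 => rel_trans hr h1 h2, fun x y hxy => ?_,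
    fun x => ?_, ?_, ?_⟩
  · rcases lt_or_gt_of_ne hxy with h | h
    · rw [rel_lt h, rel_gt h]
      cases C r x y <;> simp
    · rw [rel_gt h, rel_lt h]
      cases C r y x <;> simp
  · obtain ⟨a, ha⟩ := C_stable hr x
    rcases a with _ | _
    · exact Or.inr ((key x false ha).2 rfl)
    · exact Or.inl ((key x true ha).1 rfl)
  · refine Set.infinite_of_forall_exists_gt fun N => ?_
    obtain ⟨x, hx, ha⟩ := C_both hr true (N + 1)
    exact ⟨x, (key x true ha).1 rfl, by omega⟩
  · refine Set.infinite_of_forall_exists_gt fun N => ?_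
    obtain ⟨x, hx, ha⟩ := C_both hr false (N + 1)
    exact ⟨x, (key x false ha).2 rfl, by omega⟩

theorem mapK_srt {r : ℕ → Bool} (hr : ∀ m n, right r m = true → right r n = true → m = n) :
    mapK r ∈ SRT22.dom := by
  intro x
  obtain ⟨a, ha⟩ := C_stable hr x
  obtain ⟨N, hN⟩ := Filter.eventually_atTop.1 ha
  refine ⟨a, max N (x + 1), fun y hy => ?_⟩
  have h1 : N ≤ y := le_trans (le_max_left _ _) hy
  have h2 : x + 1 ≤ y := le_trans (le_max_right _ _) hy
  rw [mapK_lt (by omega)]
  exact hN y h1

/-- A solution of the colouring is hyperimmune relative to the first component. -/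
theorem hyp_part {r h : ℕ → Bool} (hr : ∀ m n, right r m = true → right r n = true → m = n)
    (hinf : {n | h n = true}.Infinite) {a : Bool}
    (hhom : ∀ x y, x < y → h x = true → h y = true → C r x y = a)
    {Φ : List Bool → ℕ → Option ℕ} (hΦ : Computable₂ Φ)
    (h1 : ∀ n, ∃ k y, Φ (pre (left r) k) n = some y)
    (h2 : ∀ n k y, Φ (pre (left r) k) n = some y → ∃ i, n ≤ i ∧ i ≤ y ∧ h i = true) : False := by
  by_cases hex : ∃ j, right r j = true
  · obtain ⟨j, hj⟩ := hex
    have hΨ : Computable₂ fun (τ : List Bool) (n : ℕ) => Φ τ (max n (j + 1)) :=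
      hΦ.comp Computable.fst (Primrec.to_comp
        (Primrec.nat_max.comp Primrec.snd (Primrec.const (j + 1))))
    refine hyper (p := left r) (h := fun n => decide (j < n) && h n) (a := a) hΨ
      (fun n => h1 _) (fun n k y hy => ?_) ?_ ?_
    · obtain ⟨i, hi1, hi2, hi3⟩ := h2 _ k y hy
      refine ⟨i, le_trans (le_max_left _ _) hi1, hi2, ?_⟩
      have : j + 1 ≤ i := le_trans (le_max_right _ _) hi1
      simp only [Bool.and_eq_true, decide_eq_true_eq]
      exact ⟨by omega, hi3⟩
    · refine Set.infinite_of_not_bddAbove ?_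
      rintro ⟨B, hB⟩
      obtain ⟨n, hn, hlt⟩ := hinf.exists_gt (max j B)
      have h3 : j < n := lt_of_le_of_lt (le_max_left _ _) hlt
      have h4 : B < n := lt_of_le_of_lt (le_max_right _ _) hlt
      have h5 : n ≤ B := hB (by
        change (decide (j < n) && h n) = true
        have hn' : h n = true := hn
        simp [h3, hn'])
      omega
    · intro x y hxy hx hy
      simp only [Bool.and_eq_true, decide_eq_true_eq] at hx hy
      rw [← colour_after hr hj hx.1 hy.1]
      exact hhom x y hxy hx.2 hy.2
  · push Not at hex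
    have hno : ∀ j, right r j = false := fun j => by simpa using hex j
    refine hyper (p := left r) (a := a) hΦ h1 h2 hinf fun x y hxy hx hy => ?_
    rw [← colour_none hr (x := x) (y := y) fun j _ => hno j]
    exact hhom x y hxy hx hy

theorem mem_HYP {r h : ℕ → Bool} (hr : ∀ m n, right r m = true → right r n = true → m = n)
    (hinf : {n | h n = true}.Infinite) {a : Bool}
    (hhom : ∀ x y, x < y → h x = true → h y = true → C r x y = a) :
    h ∈ HYP.sol (left r) := by
  refine ⟨hinf, fun g hg N => ?_⟩
  by_contra hcon
  push Not at hcon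
  obtain ⟨Φ, hΦ, -, hval⟩ := use_principle (RecursiveIn.iff_nat.1 hg)
  have hΨ : Computable₂ fun (τ : List Bool) (n : ℕ) => Φ τ (max n N) :=
    Primrec.to_comp (hΦ.comp Primrec.fst (Primrec.nat_max.comp Primrec.snd (Primrec.const N)))
  refine hyp_part hr hinf hhom hΨ (fun n => ?_) (fun n k y hy => ?_)
  · obtain ⟨k, hk⟩ := (hval (max n N) (g (max n N))).1 (Part.mem_some _)
    exact ⟨k, _, hk⟩
  · have h3 := (hval (max n N) y).2 ⟨k, hy⟩
    rw [Part.mem_some_iff] at h3
    subst h3
    have h4 : StrictMono (Nat.nth fun i => h i = true) := Nat.nth_strictMono hinf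
    refine ⟨Nat.nth (fun i => h i = true) (max n N),
      le_trans (le_max_left n N) h4.le_apply, hcon _ (le_max_right n N),
      Nat.nth_mem_of_infinite hinf _⟩

/-- the least element `≥ n` of the set computed by `Φ` that is seen on `τ` -/
def srch (Φ : List Bool → ℕ → Option ℕ) (τ : List Bool) (n : ℕ) : Option ℕ :=
  ((List.range τ.length).filterMap fun i =>
    bif (decide (n ≤ i) && decide (Φ τ i = some 1)) then some i else none).head?

theorem primrec_srch {Φ : List Bool → ℕ → Option ℕ} (hΦ : Primrec₂ Φ) : Primrec₂ (srch Φ) := by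
  have h1 : Primrec (fun q : (List Bool × ℕ) × ℕ => decide (q.1.2 ≤ q.2)) :=
    (PrimrecRel.comp Primrec.nat_le (Primrec.snd.comp Primrec.fst) Primrec.snd).decide
  have h2 : Primrec (fun q : (List Bool × ℕ) × ℕ => decide (Φ q.1.1 q.2 = some 1)) :=
    (PrimrecRel.comp Primrec.eq (hΦ.comp (Primrec.fst.comp Primrec.fst) Primrec.snd)
      (Primrec.const (some 1))).decide
  have h3 : Primrec₂ (fun (q : List Bool × ℕ) (i : ℕ) =>
      (bif (decide (q.2 ≤ i) && decide (Φ q.1 i = some 1)) then some i else none : Option ℕ)) :=
    Primrec.cond (Primrec.and.comp h1 h2) (Primrec.option_some.comp Primrec.snd)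
      (Primrec.const none)
  exact Primrec.list_head?.comp (Primrec.listFilterMap
    (Primrec.list_range.comp (Primrec.list_length.comp Primrec.fst)) h3)

theorem srch_spec {Φ : List Bool → ℕ → Option ℕ} {τ : List Bool} {n y : ℕ}
    (h : srch Φ τ n = some y) : n ≤ y ∧ Φ τ y = some 1 := by
  have h1 := List.mem_of_mem_head? (Option.mem_def.2 h)
  rw [List.mem_filterMap] at h1
  obtain ⟨i, _, hi⟩ := h1
  by_cases hc : n ≤ i ∧ Φ τ i = some 1
  · simp only [hc.1, hc.2, decide_true, Bool.and_self, cond_true, Option.some.injEq] at hi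
    subst hi
    exact hc
  · have h2 : (decide (n ≤ i) && decide (Φ τ i = some 1)) = false := by
      rw [← Bool.not_eq_true, Bool.and_eq_true, decide_eq_true_eq, decide_eq_true_eq]
      exact hc
    rw [h2] at hi
    simp at hi

theorem srch_ex {Φ : List Bool → ℕ → Option ℕ} {τ : List Bool} {n i : ℕ} (h1 : n ≤ i)
    (h2 : i < τ.length) (h3 : Φ τ i = some 1) : ∃ y, srch Φ τ n = some y := by
  rw [← Option.ne_none_iff_exists']
  intro h4
  unfold srch at h4
  rw [List.head?_eq_none_iff, List.filterMap_eq_nil_iff] at h4
  have h5 := h4 i (List.mem_range.2 h2)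
  simp [h1, h3] at h5

theorem mem_NON {r h : ℕ → Bool} (hr : ∀ m n, right r m = true → right r n = true → m = n)
    (hinf : {n | h n = true}.Infinite) {a : Bool}
    (hhom : ∀ x y, x < y → h x = true → h y = true → C r x y = a) :
    h ∈ NON.sol (left r) := by
  intro ht
  obtain ⟨Φ, hΦ, hmono, hval⟩ := use_principle (RecursiveIn.iff_nat.1 ht)
  have hval' : ∀ n k y, Φ (pre (left r) k) n = some y → y = (h n).toNat := by
    intro n k y hy
    have h3 := (hval n y).2 ⟨k, hy⟩
    rwa [Part.mem_some_iff] at h3
  refine hyp_part hr hinf hhom (primrec_srch hΦ).to_comp (fun n => ?_) (fun n k y hy => ?_)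
  · obtain ⟨i, hi, hlt⟩ := hinf.exists_gt n
    have hi' : h i = true := hi
    obtain ⟨k, hk⟩ := (hval i 1).1 (by simp [hi'])
    obtain ⟨y, hy⟩ := srch_ex (Φ := Φ) (τ := pre (left r) (max k (i + 1))) (n := n) (i := i)
      hlt.le (by rw [pre_length]; exact lt_of_lt_of_le (Nat.lt_succ_self i) (le_max_right _ _))
      (hmono _ _ _ _ (le_max_left _ _) hk)
    exact ⟨_, y, hy⟩
  · obtain ⟨h3, h4⟩ := srch_spec hy
    refine ⟨y, h3, le_rfl, ?_⟩
    have h5 := hval' _ _ _ h4
    rcases hb : h y with _ | _
    · rw [hb] at h5
      simp at h5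
    · rfl

/-- The reduction, for every problem `f` solved by all homogeneous sets of the orderings, to every
problem `g` that has these orderings as instances. -/
theorem reduction {f g : Problem}
    (hg : ∀ r : ℕ → Bool, (∀ m n, right r m = true → right r n = true → m = n) → mapK r ∈ g.dom)
    (hsol : ∀ r h : ℕ → Bool, h ∈ g.sol (mapK r) → {n | h n = true}.Infinite ∧
      ∃ a : Bool, ∀ x y, x < y → h x = true → h y = true → C r x y = a)
    (hf : ∀ (r h : ℕ → Bool) (a : Bool), (∀ m n, right r m = true → right r n = true → m = n) →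
      {n | h n = true}.Infinite →
      (∀ x y, x < y → h x = true → h y = true → C r x y = a) → h ∈ f.sol (left r)) :
    WeihrauchReducible (prod f LLPO) g := by
  refine ⟨mapH, fun r => Part.some (mapK r), ⟨wordH, primrec_wordH.to_comp, fun s q hq =>
    computes_mapH hq⟩, ⟨wordK, primrec_wordK.to_comp, fun r c hc => ?_⟩, ?_⟩
  · rw [Part.mem_some_iff.1 hc]
    exact computes_mapK r
  · intro G hG r hr
    obtain ⟨_, hr2⟩ := hr
    have hr' : ∀ m n, right r m = true → right r n = true → m = n := hr2
    obtain ⟨h, hhG, hmem⟩ := hG (mapK r) (hg r hr')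
    obtain ⟨hinf, c, hhom⟩ := hsol r h hmem
    obtain ⟨a, b, hab⟩ := exists_firstTwo hinf
    refine ⟨join h (fun _ => answ (pre r (2 * b)) a b), ?_, ?_⟩
    · refine Part.mem_bind (Part.mem_some _) (Part.mem_bind hhG ?_)
      refine mem_mapH.2 ⟨a, b, ?_, ?_⟩
      · rw [right_join]; exact hab
      · rw [right_join, left_join]
    · refine ⟨?_, ?_⟩
      · rw [left_join]
        exact hf r h c hr' hinf hhom
      · rw [right_join]
        exact ⟨_, rfl, fun n => llpo_part hr' hinf hhom hab n⟩

theorem sol_sads (r h : ℕ → Bool) (hh : h ∈ SADS.sol (mapK r)) : {n | h n = true}.Infinite ∧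
    ∃ a : Bool, ∀ x y, x < y → h x = true → h y = true → C r x y = a := by
  obtain ⟨hinf, h1 | h1⟩ := hh
  · exact ⟨hinf, true, fun x y hxy hx hy => (rel_lt hxy).1 (h1 x y hxy hx hy)⟩
  · exact ⟨hinf, false, fun x y hxy hx hy => (rel_gt hxy).1 (h1 x y hxy hx hy)⟩

theorem sol_rt (r h : ℕ → Bool) (hh : h ∈ RT22.sol (mapK r)) : {n | h n = true}.Infinite ∧
    ∃ a : Bool, ∀ x y, x < y → h x = true → h y = true → C r x y = a := by
  obtain ⟨hinf, a, ha⟩ := hh
  exact ⟨hinf, a, fun x y hxy hx hy => by rw [← mapK_lt hxy]; exact ha x y hxy hx hy⟩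

theorem hyp_sads : WeihrauchReducible (prod HYP LLPO) SADS :=
  reduction (fun _ hr => mapK_sads hr) sol_sads fun _ _ _ hr hinf hhom => mem_HYP hr hinf hhom

theorem non_sads : WeihrauchReducible (prod NON LLPO) SADS :=
  reduction (fun _ hr => mapK_sads hr) sol_sads fun _ _ _ hr hinf hhom => mem_NON hr hinf hhom

theorem hyp_srt : WeihrauchReducible (prod HYP LLPO) SRT22 :=
  reduction (fun _ hr => mapK_srt hr) sol_rt fun _ _ _ hr hinf hhom => mem_HYP hr hinf hhom

theorem non_rt : WeihrauchReducible (prod NON LLPO) RT22 :=
  reduction (fun _ _ => Set.mem_univ _) sol_rt fun _ _ _ hr hinf hhom => mem_NON hr hinf hhom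

end Pool.Agent.Y534.NLO
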